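import Mathlib

set_option autoImplicit false

/-!
Ruzsa–Szemerédi systems: basic counting and closed subfamilies.
-/

namespace Pool.Agent.H22.RSG

open Finset Classical

noncomputable section

/-- A Ruzsa–Szemerédi system: partner maps `p i` (involutions whose fixed points are the
uncovered vertices) such that no edge of `p j` lies inside the vertex set of `p i` for `i ≠ j`. -/
structure Sys (V ι : Type) where
  p : ι → V → V
  invol : ∀ i x, p i (p i x) = x
  rs : ∀ i j x, p i x ≠ x → p j x ≠ x → p i (p j x) ≠ p j x → i = j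

variable {V ι : Type} [Fintype V] (S : Sys V ι)

/-- The vertex set of the matching `i`. -/
def Sys.vs (i : ι) : Finset V := univ.filter (fun x => S.p i x ≠ x)

/-- The members of `J` that cover `x`. -/
def Sys.at' (J : Finset ι) (x : V) : Finset ι := J.filter (fun i => S.p i x ≠ x)

/-- The neighbours of `x` in the matchings of `I`. -/
def Sys.nb (I : Finset ι) (x : V) : Finset V := (S.at' I x).image (fun i => S.p i x)

/-- The proportion of the members of `J` that cover `x`. -/
def Sys.f (J : Finset ι) (x : V) : ℝ := ((S.at' J x).card : ℝ) / J.card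

lemma Sys.mem_vs {i : ι} {x : V} : x ∈ S.vs i ↔ S.p i x ≠ x := by simp [Sys.vs]

lemma Sys.mem_at' {J : Finset ι} {i : ι} {x : V} : i ∈ S.at' J x ↔ i ∈ J ∧ S.p i x ≠ x := by
  simp [Sys.at']

lemma Sys.partner_ne {i : ι} {x : V} (h : S.p i x ≠ x) : S.p i (S.p i x) ≠ S.p i x := by
  intro h2
  rw [S.invol] at h2
  exact h h2.symm

lemma Sys.f_nonneg (J : Finset ι) (x : V) : 0 ≤ S.f J x := by unfold Sys.f; positivity

lemma Sys.f_le_one (J : Finset ι) (x : V) : S.f J x ≤ 1 := by
  unfold Sys.f
  apply div_le_one_of_le₀ _ (by positivity)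
  exact_mod_cast card_le_card (filter_subset _ _)

lemma Sys.card_mul_f {J : Finset ι} (hJ : J.Nonempty) (x : V) :
    (J.card : ℝ) * S.f J x = (S.at' J x).card := by
  unfold Sys.f
  have : (J.card : ℝ) ≠ 0 := by exact_mod_cast (card_pos.mpr hJ).ne'
  field_simp

/-- double counting -/
lemma Sys.sum_at' (J : Finset ι) (X : Finset V) :
    ∑ x ∈ X, (S.at' J x).card = ∑ i ∈ J, (S.vs i ∩ X).card := by
  have h1 : ∀ x, (S.at' J x).card = ∑ i ∈ J, if S.p i x ≠ x then 1 else 0 := by
    intro x; simp [Sys.at', card_filter]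
  have h2 : ∀ i, (S.vs i ∩ X).card = ∑ x ∈ X, if S.p i x ≠ x then 1 else 0 := by
    intro i
    rw [← card_filter]
    congr 1
    ext x
    simp [Sys.vs, and_comm]
  simp_rw [h1, h2]
  exact sum_comm

lemma Sys.sum_f {J : Finset ι} (hJ : J.Nonempty) (X : Finset V) :
    (J.card : ℝ) * ∑ x ∈ X, S.f J x = ∑ i ∈ J, ((S.vs i ∩ X).card : ℝ) := by
  rw [mul_sum]
  rw [sum_congr rfl (fun x _ => S.card_mul_f hJ x)]
  exact_mod_cast S.sum_at' J X

/-- distinct matchings share at most half of the vertices -/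
lemma Sys.inter_le {i j : ι} (h : i ≠ j) : 2 * (S.vs i ∩ S.vs j).card ≤ (S.vs j).card := by
  have h1 : (S.vs i ∩ S.vs j).card ≤ (S.vs j \ S.vs i).card := by
    apply card_le_card_of_injOn (fun x => S.p j x)
    · intro x hx
      simp only [coe_inter, Set.mem_inter_iff, mem_coe, S.mem_vs] at hx
      simp only [coe_sdiff, Set.mem_diff, mem_coe, S.mem_vs]
      refine ⟨S.partner_ne hx.2, ?_⟩
      intro h3
      exact h (S.rs i j x hx.1 hx.2 h3)
    · intro x _ y _ hxy
      have := congrArg (S.p j) hxy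
      simpa [S.invol] using this
  have h2 : (S.vs j).card = (S.vs j \ S.vs i).card + (S.vs i ∩ S.vs j).card := by
    rw [inter_comm]
    exact (card_sdiff_add_card_inter _ _).symm
  omega

/-- for a vertex `w` of the matching `i`, the matching meets the neighbourhood of `w` only
in the partner of `w` -/
lemma Sys.inter_nb_le (I : Finset ι) {i : ι} {w : V} (h : S.p i w ≠ w) :
    (S.vs i ∩ S.nb I w).card ≤ 1 := by
  have : S.vs i ∩ S.nb I w ⊆ {S.p i w} := by
    intro y hy
    simp only [mem_inter, S.mem_vs, Sys.nb, mem_image, S.mem_at'] at hy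
    obtain ⟨h1, j, ⟨_, h2⟩, rfl⟩ := hy
    have := S.rs i j w h h2 h1
    subst this
    simp
  simpa using card_le_card this

lemma Sys.nb_card_le (I : Finset ι) (x : V) (X : Finset V) :
    ((S.at' I x).filter (fun i => S.p i x ∈ X)).card ≤ (S.nb I x ∩ X).card := by
  apply card_le_card_of_injOn (fun i => S.p i x)
  · intro i hi
    simp only [coe_filter, Set.mem_setOf_eq] at hi
    simp only [coe_inter, Set.mem_inter_iff, mem_coe, Sys.nb, mem_image]
    exact ⟨⟨i, hi.1, rfl⟩, hi.2⟩
  · intro i hi j hj hij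
    simp only [coe_filter, Set.mem_setOf_eq, S.mem_at'] at hi hj
    have hij' : S.p i x = S.p j x := hij
    apply S.rs i j x hi.1.2 hj.1.2
    rw [← hij']
    exact S.partner_ne hi.1.2

/-- every matching has about half of its vertices in a sparse set -/
lemma Sys.half (I : Finset ι) (X : Finset V) :
    2 * ∑ i ∈ I, (S.vs i ∩ X).card ≤ ∑ i ∈ I, (S.vs i).card + ∑ x ∈ X, (S.nb I x ∩ X).card := by
  have h1 : ∀ i ∈ I, 2 * (S.vs i ∩ X).card ≤ (S.vs i).card +
      ((S.vs i ∩ X).filter (fun x => S.p i x ∈ X)).card := by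
    intro i _
    have h2 : ((S.vs i ∩ X).filter (fun x => ¬ S.p i x ∈ X)).card ≤ (S.vs i \ X).card := by
      apply card_le_card_of_injOn (fun x => S.p i x)
      · intro x hx
        simp only [coe_filter, mem_inter, S.mem_vs, Set.mem_setOf_eq] at hx
        simp only [coe_sdiff, Set.mem_diff, mem_coe, S.mem_vs]
        exact ⟨S.partner_ne hx.1.1, hx.2⟩
      · intro x _ y _ hxy
        have := congrArg (S.p i) hxy
        simpa [S.invol] using this
    have h3 := card_filter_add_card_filter_not (s := S.vs i ∩ X) (fun x => S.p i x ∈ X)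
    have h4 := card_sdiff_add_card_inter (S.vs i) X
    omega
  have h5 : ∑ i ∈ I, ((S.vs i ∩ X).filter (fun x => S.p i x ∈ X)).card
      = ∑ x ∈ X, ((S.at' I x).filter (fun i => S.p i x ∈ X)).card := by
    have e1 : ∀ i, ((S.vs i ∩ X).filter (fun x => S.p i x ∈ X)).card
        = ∑ x ∈ X, if (S.p i x ≠ x ∧ S.p i x ∈ X) then 1 else 0 := by
      intro i
      rw [← card_filter]
      congr 1
      ext x
      simp only [mem_filter, mem_inter, S.mem_vs]
      tauto
    have e2 : ∀ x, ((S.at' I x).filter (fun i => S.p i x ∈ X)).card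
        = ∑ i ∈ I, if (S.p i x ≠ x ∧ S.p i x ∈ X) then 1 else 0 := by
      intro x
      rw [← card_filter]
      congr 1
      ext i
      simp only [mem_filter, S.mem_at']
      tauto
    simp_rw [e1, e2]
    exact sum_comm
  calc 2 * ∑ i ∈ I, (S.vs i ∩ X).card = ∑ i ∈ I, 2 * (S.vs i ∩ X).card := by rw [mul_sum]
    _ ≤ ∑ i ∈ I, ((S.vs i).card + ((S.vs i ∩ X).filter (fun x => S.p i x ∈ X)).card) :=
        sum_le_sum h1
    _ = ∑ i ∈ I, (S.vs i).card + ∑ x ∈ X, ((S.at' I x).filter (fun i => S.p i x ∈ X)).card := by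
        rw [sum_add_distrib, h5]
    _ ≤ _ := by
        gcongr with x hx
        exact S.nb_card_le I x X

/-- second moment bound -/
lemma Sys.second_moment {J : Finset ι} (hJ : J.Nonempty) :
    ∑ x, (S.f J x) ^ 2 ≤ (1 / 2 + 1 / (J.card : ℝ)) * ∑ x, S.f J x := by
  have hpos : (0 : ℝ) < J.card := by exact_mod_cast card_pos.mpr hJ
  -- the integer inequality
  have key : 2 * ∑ x, (S.at' J x).card ^ 2 ≤ (J.card + 2) * ∑ x, (S.at' J x).card := by
    have h1 : ∑ x, (S.at' J x).card ^ 2 = ∑ i ∈ J, ∑ j ∈ J, (S.vs i ∩ S.vs j).card := by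
      have e1 : ∀ x, (S.at' J x).card ^ 2
          = ∑ i ∈ J, ∑ j ∈ J, if (S.p i x ≠ x ∧ S.p j x ≠ x) then 1 else 0 := by
        intro x
        have : (S.at' J x).card = ∑ i ∈ J, if S.p i x ≠ x then 1 else 0 := by
          simp [Sys.at', card_filter]
        rw [this, sq, sum_mul_sum]
        refine sum_congr rfl fun i _ => sum_congr rfl fun j _ => ?_
        by_cases a : S.p i x = x <;> by_cases b : S.p j x = x <;> simp [a, b]
      have e2 : ∀ i j, (S.vs i ∩ S.vs j).card
          = ∑ x, if (S.p i x ≠ x ∧ S.p j x ≠ x) then 1 else 0 := by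
        intro i j
        rw [← card_filter]
        congr 1
        ext x
        simp [S.mem_vs]
      simp_rw [e1, e2]
      rw [sum_comm]
      refine sum_congr rfl fun i _ => ?_
      rw [sum_comm]
    have h2 : ∑ x, (S.at' J x).card = ∑ j ∈ J, (S.vs j).card := by
      have := S.sum_at' J univ
      simpa using this
    rw [h1, h2, mul_sum]
    have h3 : ∀ i ∈ J, 2 * ∑ j ∈ J, (S.vs i ∩ S.vs j).card ≤
        ∑ j ∈ J, (S.vs j).card + 2 * (S.vs i).card := by
      intro i hi
      rw [mul_sum, ← add_sum_erase J _ hi]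
      have h4 : ∑ j ∈ J.erase i, 2 * (S.vs i ∩ S.vs j).card ≤ ∑ j ∈ J.erase i, (S.vs j).card := by
        apply sum_le_sum
        intro j hj
        exact S.inter_le (ne_of_mem_erase hj).symm
      have h5 : ∑ j ∈ J.erase i, (S.vs j).card ≤ ∑ j ∈ J, (S.vs j).card :=
        sum_le_sum_of_subset (erase_subset _ _)
      rw [inter_self]
      omega
    calc ∑ i ∈ J, 2 * ∑ j ∈ J, (S.vs i ∩ S.vs j).card
        ≤ ∑ i ∈ J, (∑ j ∈ J, (S.vs j).card + 2 * (S.vs i).card) := sum_le_sum h3
      _ = (J.card + 2) * ∑ j ∈ J, (S.vs j).card := by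
        rw [sum_add_distrib, ← mul_sum, sum_const, smul_eq_mul]
        ring
  have key' : 2 * ∑ x, ((S.at' J x).card : ℝ) ^ 2 ≤
      ((J.card : ℝ) + 2) * ∑ x, ((S.at' J x).card : ℝ) := by exact_mod_cast key
  have e1 : ∑ x, (S.f J x) ^ 2 = (∑ x, ((S.at' J x).card : ℝ) ^ 2) / (J.card : ℝ) ^ 2 := by
    unfold Sys.f
    rw [sum_div]
    refine sum_congr rfl fun x _ => ?_
    rw [div_pow]
  have e2 : ∑ x, S.f J x = (∑ x, ((S.at' J x).card : ℝ)) / (J.card : ℝ) := by
    unfold Sys.f
    rw [sum_div]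
  rw [e1, e2, div_le_iff₀ (by positivity)]
  have : (1 / 2 + 1 / (J.card : ℝ)) * ((∑ x, ((S.at' J x).card : ℝ)) / (J.card : ℝ)) *
      (J.card : ℝ) ^ 2 = (((J.card : ℝ) + 2) * ∑ x, ((S.at' J x).card : ℝ)) / 2 := by
    field_simp
  rw [this]
  linarith

/-- `J` is closed in `I` (with parameter `η`). -/
def Sys.Closed (η : ℝ) (I J : Finset ι) : Prop :=
  ∃ U : Finset V, (∑ x ∈ U, S.f J x) * (η * I.card) ≤ Fintype.card V ∧
    ∀ x, η ≤ S.f J x → ((S.nb I x \ U).card : ℝ) < η * I.card

/-- existence of large closed subfamilies -/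
lemma Sys.exists_closed {η : ℝ} (h0 : 0 < η) (h1 : η ≤ 1) {I R : Finset ι}
    (hI : I.Nonempty) (hR : R.Nonempty) :
    ∃ J ⊆ R, J.Nonempty ∧ S.Closed η I J ∧
      (R.card : ℝ) * Real.exp (-(Real.log (1 / η) / η * (Fintype.card V / I.card))) ≤ J.card := by
  have hIpos : (0 : ℝ) < I.card := by exact_mod_cast card_pos.mpr hI
  have hRpos : (0 : ℝ) < R.card := by exact_mod_cast card_pos.mpr hR
  have hηI : 0 < η * I.card := by positivity
  let Q : ℕ → Prop := fun n => ∃ W : Finset V, ∃ J ⊆ R, η ^ n * R.card ≤ (J.card : ℝ) ∧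
    W.card ≤ n ∧ (∀ i ∈ J, ∀ w ∈ W, S.p i w ≠ w) ∧
    (n : ℝ) * (η * I.card) ≤ ((W.biUnion (S.nb I)).card : ℝ)
  have hQ0 : Q 0 := ⟨∅, R, Subset.rfl, by simp, by simp, by simp, by simp⟩
  have hQb : ∀ n, Q n → (n : ℝ) * (η * I.card) ≤ Fintype.card V := by
    rintro n ⟨W, J, _, _, _, _, h⟩
    refine h.trans ?_
    exact_mod_cast card_le_univ _
  have hex : ∃ n, Q n ∧ ¬ Q (n + 1) := by
    by_contra hcon
    push_neg at hcon
    have hall : ∀ n, Q n := by
      intro n
      induction n with
      | zero => exact hQ0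
      | succ n ih => exact hcon n ih
    obtain ⟨n, hn⟩ := exists_nat_gt ((Fintype.card V : ℝ) / (η * I.card))
    have := hQb n (hall n)
    rw [div_lt_iff₀ hηI] at hn
    linarith
  obtain ⟨n, hn, hn1⟩ := hex
  have hnb := hQb n hn
  obtain ⟨W, J, hJR, hJc, hWc, hW, hU⟩ := hn
  have hJpos : (0 : ℝ) < J.card := lt_of_lt_of_le (by positivity) hJc
  have hJne : J.Nonempty := by
    rw [← card_pos]; exact_mod_cast hJpos
  refine ⟨J, hJR, hJne, ⟨W.biUnion (S.nb I), ?_, ?_⟩, ?_⟩
  · -- mass on U
    have h2 : ∀ i ∈ J, (S.vs i ∩ W.biUnion (S.nb I)).card ≤ n := by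
      intro i hi
      calc (S.vs i ∩ W.biUnion (S.nb I)).card = (W.biUnion (fun w => S.vs i ∩ S.nb I w)).card := by
            rw [inter_biUnion]
        _ ≤ ∑ w ∈ W, (S.vs i ∩ S.nb I w).card := card_biUnion_le
        _ ≤ ∑ w ∈ W, 1 := sum_le_sum (fun w hw => S.inter_nb_le I (hW i hi w hw))
        _ = W.card := by simp
        _ ≤ n := hWc
    have h3 := S.sum_f hJne (W.biUnion (S.nb I))
    have h4 : ∑ i ∈ J, ((S.vs i ∩ W.biUnion (S.nb I)).card : ℝ) ≤ J.card * n := by
      calc ∑ i ∈ J, ((S.vs i ∩ W.biUnion (S.nb I)).card : ℝ) ≤ ∑ i ∈ J, (n : ℝ) :=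
            sum_le_sum (fun i hi => by exact_mod_cast h2 i hi)
        _ = _ := by simp
    have h5 : ∑ x ∈ W.biUnion (S.nb I), S.f J x ≤ n := by
      rw [← h3] at h4
      exact le_of_mul_le_mul_left h4 hJpos
    calc (∑ x ∈ W.biUnion (S.nb I), S.f J x) * (η * I.card) ≤ n * (η * I.card) := by
          gcongr
      _ ≤ _ := hnb
  · intro x hx
    by_contra hcon
    push_neg at hcon
    apply hn1
    refine ⟨insert x W, S.at' J x, (filter_subset _ _).trans hJR, ?_, ?_, ?_, ?_⟩
    · have := S.card_mul_f hJne x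
      rw [← this, pow_succ]
      calc η ^ n * η * R.card = (η ^ n * R.card) * η := by ring
        _ ≤ J.card * η := by gcongr
        _ ≤ J.card * S.f J x := by gcongr
    · exact (card_insert_le _ _).trans (by omega)
    · intro i hi w hw
      rw [S.mem_at'] at hi
      rcases mem_insert.mp hw with rfl | hw
      · exact hi.2
      · exact hW i hi.1 w hw
    · rw [biUnion_insert]
      have : (S.nb I x ∪ W.biUnion (S.nb I)).card =
          (S.nb I x \ W.biUnion (S.nb I)).card + (W.biUnion (S.nb I)).card := by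
        rw [← card_union_of_disjoint sdiff_disjoint, sdiff_union_self_eq_union]
      rw [this]
      push_cast
      linarith
  · -- size
    have hn' : (n : ℝ) ≤ Fintype.card V / (η * I.card) := by
      rw [le_div_iff₀ hηI]; exact hnb
    have hlog : 0 ≤ Real.log (1 / η) := Real.log_nonneg (by rw [le_div_iff₀ h0]; linarith)
    have h6 : Real.exp (-(Real.log (1 / η) / η * (Fintype.card V / I.card))) ≤ η ^ n := by
      have : η ^ n = Real.exp (-(n * Real.log (1 / η))) := by
        rw [one_div, Real.log_inv, mul_neg, neg_neg, Real.exp_nat_mul, Real.exp_log h0]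
      rw [this]
      apply Real.exp_le_exp.mpr
      apply neg_le_neg
      calc (n : ℝ) * Real.log (1 / η) ≤ (Fintype.card V / (η * I.card)) * Real.log (1 / η) := by
            gcongr
        _ = _ := by field_simp
    calc (R.card : ℝ) * Real.exp (-(Real.log (1 / η) / η * (Fintype.card V / I.card)))
        ≤ R.card * η ^ n := by gcongr
      _ = η ^ n * R.card := by ring
      _ ≤ _ := hJc

/-- partition into closed families -/
lemma Sys.exists_partition {η : ℝ} (h0 : 0 < η) (h1 : η ≤ 1) {I : Finset ι}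
    (hI : I.Nonempty) : ∀ (k : ℕ) (R : Finset ι), R.card = k →
    ∃ A : Finset (Finset ι), (∀ J ∈ A, J ⊆ R ∧ J.Nonempty ∧ S.Closed η I J ∧
      (η * I.card : ℝ) * Real.exp (-(Real.log (1 / η) / η * (Fintype.card V / I.card)))
        ≤ J.card) ∧ (A : Set (Finset ι)).PairwiseDisjoint id ∧
      (((R \ A.biUnion id).card : ℝ)) < η * I.card := by
  have hIpos : (0 : ℝ) < I.card := by exact_mod_cast card_pos.mpr hI
  intro k
  induction k using Nat.strong_induction_on with
  | _ k ih =>
    intro R hRk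
    by_cases hc : (R.card : ℝ) < η * I.card
    · exact ⟨∅, by simp, by simp, by simpa using hc⟩
    · push_neg at hc
      have hRne : R.Nonempty := by
        rw [← card_pos]
        have : (0 : ℝ) < R.card := lt_of_lt_of_le (by positivity) hc
        exact_mod_cast this
      obtain ⟨J, hJR, hJne, hJcl, hJc⟩ := S.exists_closed h0 h1 hI hRne
      have hlt : (R \ J).card < k := by
        rw [← hRk, card_sdiff_of_subset hJR]
        have := card_pos.mpr hJne
        have := card_le_card hJR
        omega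
      obtain ⟨A, hA1, hA2, hA3⟩ := ih _ hlt (R \ J) rfl
      refine ⟨insert J A, ?_, ?_, ?_⟩
      · intro J' hJ'
        rcases mem_insert.mp hJ' with rfl | hJ'
        · refine ⟨hJR, hJne, hJcl, le_trans ?_ hJc⟩
          gcongr
        · obtain ⟨a, b, c, d⟩ := hA1 J' hJ'
          exact ⟨a.trans sdiff_subset, b, c, d⟩
      · rw [coe_insert]
        apply hA2.insert
        intro J' hJ' _
        have := (hA1 J' hJ').1
        exact (disjoint_sdiff.mono_right this)
      · rw [biUnion_insert]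
        have : R \ (id J ∪ A.biUnion id) = (R \ J) \ A.biUnion id := by
          ext x; simp [not_or, and_assoc]
        rw [this]
        exact hA3

end

end Pool.Agent.H22.RSG
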