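import Pool.Agent.H22.RSG.Step

set_option autoImplicit false

/-!
Ruzsa–Szemerédi systems: iterating the entropy increment.
-/

namespace Pool.Agent.H22.RSG

open Finset Classical

noncomputable section

/-- The statement at level `L`. -/
def LevelStmt (L : ℕ) : Prop :=
  ∀ ε : ℝ, 0 < ε → ∃ K : ℝ, 0 < K ∧ ∀ (V ι : Type) [Fintype V] (S : Sys V ι) (I : Finset ι),
    I.Nonempty → Real.exp^[L] (K * (Fintype.card V / I.card)) ≤ Fintype.card V →
    ∑ x, S.f I x * Real.log (S.f I x) + ((L : ℝ) + 1) * Real.log 2 * ∑ x, S.f I x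
      ≤ ε * Fintype.card V

lemma level0 : LevelStmt 0 := by
  intro ε hε
  refine ⟨2 / ε, by positivity, ?_⟩
  intro V ι _ S I hI h
  have hIpos : (0 : ℝ) < I.card := by exact_mod_cast card_pos.mpr hI
  simp only [Function.iterate_zero, id] at h
  rcases (Nat.zero_le (Fintype.card V)).eq_or_lt with hV | hV
  · have : IsEmpty V := Fintype.card_eq_zero_iff.mp hV.symm
    simp
  · have hVpos : (0 : ℝ) < Fintype.card V := by exact_mod_cast hV
    have h2 : 2 ≤ ε * I.card := by
      have e : 2 / ε * ((Fintype.card V : ℝ) / I.card) = (2 / (ε * I.card)) * Fintype.card V := by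
        field_simp
      rw [e] at h
      have h3 : 2 / (ε * I.card) ≤ 1 := by
        by_contra hc
        push_neg at hc
        nlinarith
      rw [div_le_one (by positivity)] at h3
      exact h3
    have := S.level_zero hI h2
    simpa using this

lemma le_exp_iterate (k : ℕ) (y : ℝ) : y ≤ Real.exp^[k] y := by
  induction k generalizing y with
  | zero => simp
  | succ k ih =>
    rw [Function.iterate_succ_apply]
    exact le_trans (by linarith [Real.add_one_le_exp y]) (ih _)

lemma exp_iterate_mono (k : ℕ) : Monotone (Real.exp^[k]) := Real.exp_monotone.iterate k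

lemma level_succ (L : ℕ) (hL : LevelStmt L) : LevelStmt (L + 1) := by
  intro ε hε
  obtain ⟨K, hK, hKL⟩ := hL (ε / 3) (by positivity)
  have hlog2 : 0 < Real.log 2 := Real.log_pos (by norm_num)
  set m : ℝ := ((L : ℝ) + 1) * Real.log 2 with hm
  have hm0 : 0 ≤ m := by positivity
  set s : ℝ := min (ε / 3) 1 with hs
  have hs0 : 0 < s := lt_min (by positivity) one_pos
  have hs1 : s ≤ 1 := min_le_right _ _
  have hsε : s ≤ ε / 3 := min_le_left _ _
  have hlogs : 0 ≤ Real.log (1 / s) := Real.log_nonneg (by rw [le_div_iff₀ hs0]; linarith)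
  set B : ℝ := 7 + 2 * Real.log (1 / s) + 3 * (m + Real.log 2) with hB
  have hB0 : 0 < B := by positivity
  set η : ℝ := min 1 (ε / (3 * B)) with hη
  have hη0 : 0 < η := lt_min one_pos (by positivity)
  have hη1 : η ≤ 1 := min_le_left _ _
  have hηB : η * B ≤ ε / 3 := by
    have : η ≤ ε / (3 * B) := min_le_right _ _
    calc η * B ≤ ε / (3 * B) * B := by gcongr
      _ = ε / 3 := by field_simp
  have hlogη : 0 ≤ Real.log (1 / η) := Real.log_nonneg (by rw [le_div_iff₀ hη0]; linarith)
  refine ⟨K / η + Real.log (1 / η) / η + 1 / η ^ 2, by positivity, ?_⟩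
  intro V ι _ S I hI h
  set K' : ℝ := K / η + Real.log (1 / η) / η + 1 / η ^ 2 with hK'
  have hK'0 : 0 < K' := by positivity
  have hIpos : (0 : ℝ) < I.card := by exact_mod_cast card_pos.mpr hI
  rcases (Nat.zero_le (Fintype.card V)).eq_or_lt with hV | hV
  · have : IsEmpty V := Fintype.card_eq_zero_iff.mp hV.symm
    simp
  have hVpos : (0 : ℝ) < Fintype.card V := by exact_mod_cast hV
  have hIK : K' ≤ I.card := by
    have h1 := (le_exp_iterate (L + 1) _).trans h
    have e : K' * ((Fintype.card V : ℝ) / I.card) = (K' / I.card) * Fintype.card V := by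
      field_simp
    rw [e] at h1
    have h3 : K' / I.card ≤ 1 := by
      by_contra hc
      push_neg at hc
      nlinarith
    rwa [div_le_one hIpos] at h3
  have hbig : 1 ≤ η * (η * I.card) := by
    have h1 : 1 / η ^ 2 ≤ I.card := by
      refine le_trans ?_ hIK
      rw [hK']
      have : 0 ≤ K / η + Real.log (1 / η) / η := by positivity
      linarith
    rw [div_le_iff₀ (by positivity)] at h1
    nlinarith
  have IH : ∀ J ⊆ I, J.Nonempty →
      (η * I.card : ℝ) * Real.exp (-(Real.log (1 / η) / η * (Fintype.card V / I.card)))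
        ≤ J.card →
      ∑ x, S.f J x * Real.log (S.f J x) + m * ∑ x, S.f J x ≤ ε / 3 * Fintype.card V := by
    intro J _ hJne hJc
    have hJpos : (0 : ℝ) < J.card := by exact_mod_cast card_pos.mpr hJne
    apply hKL V ι S J hJne
    refine le_trans (exp_iterate_mono L ?_) (le_trans (le_of_eq
      (Function.iterate_succ_apply Real.exp L (K' * ((Fintype.card V : ℝ) / I.card))).symm) h)
    -- K * (N/|J|) ≤ exp (K' * (N/|I|))
    set u : ℝ := (Fintype.card V : ℝ) / I.card with hu
    have hu0 : 0 < u := by positivity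
    have h1 : (Fintype.card V : ℝ) / J.card ≤ u / η * Real.exp (Real.log (1 / η) / η * u) := by
      rw [div_le_iff₀ hJpos]
      have e : (u / η * Real.exp (Real.log (1 / η) / η * u)) *
          ((η * I.card) * Real.exp (-(Real.log (1 / η) / η * u))) = Fintype.card V := by
        have e1 : Real.exp (Real.log (1 / η) / η * u) * Real.exp (-(Real.log (1 / η) / η * u)) = 1 := by
          rw [← Real.exp_add]; simp
        have e2 : (u / η * Real.exp (Real.log (1 / η) / η * u)) *
          ((η * I.card) * Real.exp (-(Real.log (1 / η) / η * u))) =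
          (u * I.card) * (Real.exp (Real.log (1 / η) / η * u) *
            Real.exp (-(Real.log (1 / η) / η * u))) := by field_simp
        rw [e2, e1, hu]
        field_simp
      calc (Fintype.card V : ℝ) = (u / η * Real.exp (Real.log (1 / η) / η * u)) *
          ((η * I.card) * Real.exp (-(Real.log (1 / η) / η * u))) := e.symm
        _ ≤ _ := by gcongr
    calc K * ((Fintype.card V : ℝ) / J.card)
        ≤ K * (u / η * Real.exp (Real.log (1 / η) / η * u)) := by gcongr
      _ = (K / η * u) * Real.exp (Real.log (1 / η) / η * u) := by ring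
      _ ≤ Real.exp (K / η * u) * Real.exp (Real.log (1 / η) / η * u) := by
          gcongr
          linarith [Real.add_one_le_exp (K / η * u)]
      _ = Real.exp ((K / η + Real.log (1 / η) / η) * u) := by
          rw [← Real.exp_add]; ring_nf
      _ ≤ Real.exp (K' * u) := by
          apply Real.exp_le_exp.mpr
          have : 0 ≤ 1 / η ^ 2 := by positivity
          have : K / η + Real.log (1 / η) / η ≤ K' := by rw [hK']; linarith
          gcongr
  have hstep := S.step hη0 hη1 hs0 hs1 hm0 (by positivity : (0 : ℝ) ≤ ε / 3) hI hbig IH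
  have e : ((((L + 1 : ℕ) : ℝ)) + 1) * Real.log 2 = m + Real.log 2 := by
    rw [hm]; push_cast; ring
  rw [e]
  refine hstep.trans ?_
  gcongr
  rw [← hB]
  linarith

theorem level (L : ℕ) : LevelStmt L := by
  induction L with
  | zero => exact level0
  | succ L ih => exact level_succ L ih

/-- lower bound for the entropy -/
lemma Sys.entropy_lower {V ι : Type} [Fintype V] (S : Sys V ι) {I : Finset ι} {c : ℝ}
    (hc : 0 < c) (hI : I.Nonempty)
    (h : 2 * c * Fintype.card V * I.card ≤ ∑ i ∈ I, ((S.vs i).card : ℝ))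
    {m : ℝ} (hm : 0 ≤ Real.log (2 * c) + m) :
    (2 * c * (Real.log (2 * c) + m)) * Fintype.card V ≤
      ∑ x, S.f I x * Real.log (S.f I x) + m * ∑ x, S.f I x := by
  have hIpos : (0 : ℝ) < I.card := by exact_mod_cast card_pos.mpr hI
  rcases (Nat.zero_le (Fintype.card V)).eq_or_lt with hV | hV
  · have : IsEmpty V := Fintype.card_eq_zero_iff.mp hV.symm
    simp
  have hVpos : (0 : ℝ) < Fintype.card V := by exact_mod_cast hV
  -- mean
  set μ : ℝ := (∑ x, S.f I x) / Fintype.card V with hμ
  have h1 : 2 * c ≤ μ := by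
    rw [hμ, le_div_iff₀ hVpos]
    have h2 := S.sum_f hI univ
    simp only [inter_univ] at h2
    have h3 : (I.card : ℝ) * (2 * c * Fintype.card V) ≤ I.card * ∑ x, S.f I x := by
      rw [h2]
      linarith
    exact le_of_mul_le_mul_left h3 hIpos
  have hμ0 : 0 < μ := lt_of_lt_of_le (by positivity) h1
  have h2 : ∑ x, (S.f I x * Real.log μ + S.f I x - μ) ≤ ∑ x, S.f I x * Real.log (S.f I x) :=
    sum_le_sum (fun x _ => phi_tangent (S.f_nonneg I x) hμ0)
  rw [sum_sub_distrib, sum_add_distrib, ← sum_mul] at h2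
  have h3 : ∑ x, S.f I x = μ * Fintype.card V := by rw [hμ]; field_simp
  have h4 : ∑ x : V, μ = μ * Fintype.card V := by simp [mul_comm]
  rw [h4] at h2
  rw [h3] at h2 ⊢
  have h5 : Real.log (2 * c) ≤ Real.log μ := Real.log_le_log (by positivity) h1
  have h6 : 2 * c * (Real.log (2 * c) + m) ≤ μ * (Real.log μ + m) := by
    apply mul_le_mul h1 (by linarith) hm hμ0.le
  nlinarith

/-- the bound for Ruzsa–Szemerédi systems -/
theorem Sys.bound (L : ℕ) {c : ℝ} (hc : 1 / 2 ^ (L + 2) < c) :
    ∃ K : ℝ, 0 < K ∧ ∀ (V ι : Type) [Fintype V] (S : Sys V ι) (I : Finset ι),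
      I.Nonempty → 0 < Fintype.card V →
      2 * c * Fintype.card V * I.card ≤ ∑ i ∈ I, ((S.vs i).card : ℝ) →
      (Fintype.card V : ℝ) < Real.exp^[L] (K * (Fintype.card V / I.card)) := by
  have hc0 : 0 < c := lt_trans (by positivity) hc
  have hlog2 : 0 < Real.log 2 := Real.log_pos (by norm_num)
  have hpos : 0 < Real.log (2 * c) + ((L : ℝ) + 1) * Real.log 2 := by
    have e : Real.log (2 * c) + ((L : ℝ) + 1) * Real.log 2 = Real.log (2 ^ (L + 2) * c) := by
      rw [Real.log_mul (by positivity) hc0.ne', Real.log_mul (by norm_num) hc0.ne', Real.log_pow]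
      push_cast; ring
    rw [e]
    apply Real.log_pos
    rw [div_lt_iff₀ (by positivity)] at hc
    linarith
  obtain ⟨K, hK, h⟩ := level L (c * (Real.log (2 * c) + ((L : ℝ) + 1) * Real.log 2)) (by positivity)
  refine ⟨K, hK, ?_⟩
  intro V ι _ S I hI hV hvs
  by_contra hcon
  push_neg at hcon
  have h1 := h V ι S I hI hcon
  have h2 := S.entropy_lower hc0 hI hvs hpos.le
  have hVpos : (0 : ℝ) < Fintype.card V := by exact_mod_cast hV
  have h3 : 0 < c * (Real.log (2 * c) + ((L : ℝ) + 1) * Real.log 2) * Fintype.card V := by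
    positivity
  nlinarith

end

end Pool.Agent.H22.RSG
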