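import Pool.Agent.H22.RSG.Level

set_option autoImplicit false

/-!
Ruzsa–Szemerédi graphs: from the edge-set formulation to systems, and the final bound.
-/

namespace Pool.Agent.H22.RSG

open Finset Classical

/-- The edge set of `G` is the disjoint union of the `t` induced matchings `M i`: for distinct edges
`e, f` of `M i`, `x ∈ e` and `y ∈ f`, the vertices `x, y` are distinct and not adjacent in `G`.
An `(r,t)`-Ruzsa–Szemerédi graph is such a graph with `(M i).card = r` for all `i`. -/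
def IsInducedUnion {n t : ℕ} (G : SimpleGraph (Fin n)) (M : Fin t → Finset (Sym2 (Fin n))) :
    Prop :=
  (∀ i j, i ≠ j → Disjoint (M i) (M j)) ∧
  (∀ e, e ∈ G.edgeSet ↔ ∃ i, e ∈ M i) ∧
  (∀ i, ∀ e ∈ M i, ∀ f ∈ M i, e ≠ f → ∀ x ∈ e, ∀ y ∈ f, x ≠ y ∧ ¬ G.Adj x y)

noncomputable section

section conv

variable {n t : ℕ} {G : SimpleGraph (Fin n)} {M : Fin t → Finset (Sym2 (Fin n))}

/-- the partner of `x` in the matching `i` (or `x` itself) -/
def partner (M : Fin t → Finset (Sym2 (Fin n))) (i : Fin t) (x : Fin n) : Fin n :=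
  if h : ∃ y, s(x, y) ∈ M i then h.choose else x

lemma IsInducedUnion.adj (h : IsInducedUnion G M) {i : Fin t} {x y : Fin n} (hxy : s(x, y) ∈ M i) : G.Adj x y := by
  have := (h.2.1 s(x, y)).mpr ⟨i, hxy⟩
  simpa using this

lemma IsInducedUnion.uniq (h : IsInducedUnion G M) {i : Fin t} {x y z : Fin n} (hxy : s(x, y) ∈ M i)
    (hxz : s(x, z) ∈ M i) : y = z := by
  by_contra hne
  have hne' : s(x, y) ≠ s(x, z) := by
    intro h2
    rw [Sym2.congr_right] at h2
    exact hne h2
  exact (h.2.2 i _ hxy _ hxz hne' x (Sym2.mem_mk_left x y) x (Sym2.mem_mk_left x z)).1 rfl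

lemma IsInducedUnion.partner_eq (h : IsInducedUnion G M) {i : Fin t} {x y : Fin n} (hxy : s(x, y) ∈ M i) :
    partner M i x = y := by
  have hex : ∃ y, s(x, y) ∈ M i := ⟨y, hxy⟩
  unfold partner
  rw [dif_pos hex]
  exact h.uniq hex.choose_spec hxy

lemma IsInducedUnion.partner_ne_iff (h : IsInducedUnion G M) {i : Fin t} {x : Fin n} :
    partner M i x ≠ x ↔ ∃ y, s(x, y) ∈ M i := by
  constructor
  · intro h2
    by_contra h3
    apply h2
    unfold partner
    rw [dif_neg h3]
  · rintro ⟨y, hy⟩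
    rw [h.partner_eq hy]
    exact (h.adj hy).ne'

lemma IsInducedUnion.partner_mem (h : IsInducedUnion G M) {i : Fin t} {x : Fin n} (hx : partner M i x ≠ x) :
    s(x, partner M i x) ∈ M i := by
  obtain ⟨y, hy⟩ := h.partner_ne_iff.mp hx
  rw [h.partner_eq hy]
  exact hy

/-- the system of a Ruzsa–Szemerédi graph -/
def IsInducedUnion.sys (h : IsInducedUnion G M) : Sys (Fin n) (Fin t) where
  p := partner M
  invol := by
    intro i x
    by_cases hx : partner M i x = x
    · rw [hx, hx]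
    · have h1 := h.partner_mem hx
      rw [Sym2.eq_swap] at h1
      exact h.partner_eq h1
  rs := by
    intro i j x hi hj hij
    have h1 := h.partner_mem hi
    have h2 := h.partner_mem hj
    have h3 := h.partner_mem hij
    have hadj := h.adj h2
    by_cases he : s(x, partner M i x) = s(partner M j x, partner M i (partner M j x))
    · have h4 : partner M j x ∈ s(x, partner M i x) := by
        rw [he]; exact Sym2.mem_mk_left _ _
      rw [Sym2.mem_iff] at h4
      rcases h4 with h4 | h4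
      · exact absurd h4 hj
      · rw [h4] at h2
        by_contra hne
        exact (Finset.disjoint_left.mp (h.1 i j hne) h1) h2
    · exact absurd hadj (h.2.2 i _ h1 _ h3 he x (Sym2.mem_mk_left _ _) _ (Sym2.mem_mk_left _ _)).2

lemma IsInducedUnion.card_vs (h : IsInducedUnion G M) (i : Fin t) : (h.sys.vs i).card = 2 * (M i).card := by
  have h1 : h.sys.vs i = (M i).biUnion (fun e => e.toFinset) := by
    ext x
    rw [h.sys.mem_vs, mem_biUnion]
    change partner M i x ≠ x ↔ _
    rw [h.partner_ne_iff]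
    constructor
    · rintro ⟨y, hy⟩
      exact ⟨s(x, y), hy, by simp⟩
    · rintro ⟨e, he, hx⟩
      rw [Sym2.mem_toFinset] at hx
      obtain ⟨y, rfl⟩ := hx
      exact ⟨y, he⟩
  rw [h1, card_biUnion]
  · have h2 : ∀ e ∈ M i, e.toFinset.card = 2 := by
      intro e he
      apply Sym2.card_toFinset_of_not_isDiag
      have := (h.2.1 e).mpr ⟨i, he⟩
      exact G.not_isDiag_of_mem_edgeSet this
    rw [sum_congr rfl h2, sum_const, smul_eq_mul, mul_comm]
  · intro e he f hf hne
    change Disjoint e.toFinset f.toFinset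
    rw [Finset.disjoint_left]
    intro x hx hx'
    rw [Sym2.mem_toFinset] at hx hx'
    exact (h.2.2 i e he f hf hne x hx x hx').1 rfl

end conv

lemma tendsto_log_iterate (L : ℕ) :
    Filter.Tendsto (Real.log^[L]) Filter.atTop Filter.atTop :=
  Real.tendsto_log_atTop.iterate L

lemma exp_log_iterate (L : ℕ) :
    ∀ᶠ x : ℝ in Filter.atTop, Real.exp^[L] (Real.log^[L] x) = x := by
  induction L with
  | zero => simp
  | succ L ih =>
    have h1 : ∀ᶠ x : ℝ in Filter.atTop, Real.exp^[L] (Real.log^[L] (Real.log x)) = Real.log x :=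
      Real.tendsto_log_atTop.eventually ih
    filter_upwards [h1, Filter.eventually_gt_atTop 0] with x hx hx0
    rw [Function.iterate_succ_apply' Real.exp, Function.iterate_succ_apply Real.log, hx,
      Real.exp_log hx0]

/-- **Bound for Ruzsa–Szemerédi graphs with linear matchings.** -/
theorem rs_bound (L : ℕ) {c : ℝ} (hc : 1 / 2 ^ (L + 2) < c) :
    ∃ C : ℝ, ∃ n₀ : ℕ, ∀ n : ℕ, n₀ ≤ n → 0 < Real.log^[L] (n : ℝ) ∧
      ∀ (t : ℕ) (G : SimpleGraph (Fin n)) (M : Fin t → Finset (Sym2 (Fin n))),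
      IsInducedUnion G M → c * n * t ≤ ∑ i, ((M i).card : ℝ) →
      (t : ℝ) ≤ C * (n / Real.log^[L] (n : ℝ)) := by
  obtain ⟨K, hK, hbound⟩ := Sys.bound L hc
  have hev : ∀ᶠ n : ℕ in Filter.atTop, 0 < Real.log^[L] (n : ℝ) ∧
      Real.exp^[L] (Real.log^[L] (n : ℝ)) = n ∧ 0 < n := by
    have h1 : ∀ᶠ n : ℕ in Filter.atTop, 0 < Real.log^[L] (n : ℝ) :=
      ((tendsto_log_iterate L).comp tendsto_natCast_atTop_atTop).eventually
        (Filter.eventually_gt_atTop 0)
    have h2 : ∀ᶠ n : ℕ in Filter.atTop, Real.exp^[L] (Real.log^[L] (n : ℝ)) = n :=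
      tendsto_natCast_atTop_atTop.eventually (exp_log_iterate L)
    filter_upwards [h1, h2, Filter.eventually_gt_atTop 0] with n a b c
    exact ⟨a, b, c⟩
  obtain ⟨n₀, hn₀⟩ := Filter.eventually_atTop.mp hev
  refine ⟨K, n₀, ?_⟩
  intro n hn
  obtain ⟨hlog, hexp, hn0⟩ := hn₀ n hn
  refine ⟨hlog, ?_⟩
  intro t G M hRS hr
  have hnpos : (0 : ℝ) < n := by exact_mod_cast hn0
  rcases Nat.eq_zero_or_pos t with ht | ht
  · subst ht
    simp only [Nat.cast_zero]
    positivity
  have htpos : (0 : ℝ) < t := by exact_mod_cast ht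
  have hne : (univ : Finset (Fin t)).Nonempty := ⟨⟨0, ht⟩, mem_univ _⟩
  have h1 := hbound (Fin n) (Fin t) hRS.sys univ hne (by simpa using hn0) (by
    have e : ∑ i : Fin t, ((hRS.sys.vs i).card : ℝ) = 2 * ∑ i, ((M i).card : ℝ) := by
      rw [mul_sum]
      refine sum_congr rfl fun i _ => ?_
      rw [hRS.card_vs i]; push_cast; ring
    rw [e, Fintype.card_fin, Finset.card_univ, Fintype.card_fin]
    linarith)
  rw [Fintype.card_fin, Finset.card_univ, Fintype.card_fin] at h1
  have h2 : Real.log^[L] (n : ℝ) < K * ((n : ℝ) / t) := by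
    have h3 : Real.exp^[L] (Real.log^[L] (n : ℝ)) < Real.exp^[L] (K * ((n : ℝ) / t)) := by
      rw [hexp]; exact h1
    exact (Real.exp_strictMono.iterate L).lt_iff_lt.mp h3
  have h3 : (t : ℝ) * Real.log^[L] (n : ℝ) ≤ K * n := by
    have h4 : K * ((n : ℝ) / t) * t = K * n := by field_simp
    nlinarith
  rw [← mul_div_assoc, le_div_iff₀ hlog]
  exact h3

end

end Pool.Agent.H22.RSG
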