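import Pool.Agent.H22.RSG.Basic

set_option autoImplicit false

/-!
Ruzsa–Szemerédi systems: the entropy increment.
-/

namespace Pool.Agent.H22.RSG

open Finset Classical

noncomputable section

lemma phi_tangent {t s : ℝ} (ht : 0 ≤ t) (hs : 0 < s) :
    t * Real.log s + t - s ≤ t * Real.log t := by
  rcases ht.eq_or_lt with rfl | ht
  · simp; exact hs.le
  · have h := Real.log_le_sub_one_of_pos (div_pos hs ht)
    rw [Real.log_div hs.ne' ht.ne'] at h
    have h2 : t * (Real.log s - Real.log t) ≤ t * (s / t - 1) := by gcongr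
    have h3 : t * (s / t - 1) = s - t := by field_simp
    linarith

lemma phi_step {d D : ℝ} (hd : 0 ≤ d) (hdD : d ≤ D) (hD : D ≤ 1) :
    D * Real.log D ≤ d * Real.log d + (D - d) := by
  rcases (hd.trans hdD).eq_or_lt with h | h
  · have : d = 0 := le_antisymm (by linarith) hd
    simp [← h, this]
  · have h1 := phi_tangent hd h
    have h2 : Real.log D ≤ 0 := Real.log_nonpos h.le hD
    nlinarith

lemma log_bound {t : ℝ} (ht : 0 < t) : Real.log t ≤ - Real.log 2 + 2 * t - 1 := by
  have h := Real.log_le_sub_one_of_pos (show 0 < 2 * t by positivity)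
  rw [Real.log_mul (by norm_num) ht.ne'] at h
  linarith

lemma phi_bound {t : ℝ} (ht : 0 ≤ t) :
    t * Real.log t ≤ - Real.log 2 * t + 2 * t ^ 2 - t := by
  rcases ht.eq_or_lt with rfl | ht
  · simp
  · have h := log_bound ht
    have h2 : t * Real.log t ≤ t * (- Real.log 2 + 2 * t - 1) := by gcongr
    nlinarith

variable {V ι : Type} [Fintype V] (S : Sys V ι)

/-- level 0 -/
lemma Sys.level_zero {ε : ℝ} {I : Finset ι} (hI : I.Nonempty)
    (hbig : 2 ≤ ε * I.card) :
    ∑ x, S.f I x * Real.log (S.f I x) + Real.log 2 * ∑ x, S.f I x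
      ≤ ε * Fintype.card V := by
  have hIpos : (0 : ℝ) < I.card := by exact_mod_cast card_pos.mpr hI
  have h1 : ∑ x, S.f I x * Real.log (S.f I x) ≤
      ∑ x, (- Real.log 2 * S.f I x + 2 * (S.f I x) ^ 2 - S.f I x) :=
    sum_le_sum (fun x _ => phi_bound (S.f_nonneg I x))
  rw [sum_sub_distrib, sum_add_distrib, ← mul_sum, ← mul_sum] at h1
  have h2 := S.second_moment hI
  have h3 : ∑ x, S.f I x ≤ Fintype.card V := by
    calc ∑ x, S.f I x ≤ ∑ x : V, (1 : ℝ) := sum_le_sum (fun x _ => S.f_le_one I x)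
      _ = _ := by simp
  have h4 : 0 ≤ ∑ x, S.f I x := sum_nonneg (fun x _ => S.f_nonneg I x)
  have h5 : 2 / (I.card : ℝ) ≤ ε := by
    rw [div_le_iff₀ hIpos]; exact hbig
  have h6 : 2 / (I.card : ℝ) * ∑ x, S.f I x ≤ ε * Fintype.card V := by
    have : 0 ≤ 2 / (I.card : ℝ) := by positivity
    calc 2 / (I.card : ℝ) * ∑ x, S.f I x ≤ ε * ∑ x, S.f I x := by gcongr
      _ ≤ ε * Fintype.card V := by
        have : 0 ≤ ε := this.trans h5
        gcongr
  have h7 : (1 / 2 + 1 / (I.card : ℝ)) * ∑ x, S.f I x =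
      1 / 2 * ∑ x, S.f I x + 1 / 2 * (2 / (I.card : ℝ) * ∑ x, S.f I x) := by ring
  linarith

section step

variable {η s ε' m : ℝ} {I : Finset ι} {A : Finset (Finset ι)}

lemma Sys.weights_le (hI : I.Nonempty) (hA : ∀ J ∈ A, J ⊆ I)
    (hd : (A : Set (Finset ι)).PairwiseDisjoint id) :
    ∑ J ∈ A, (J.card : ℝ) / I.card ≤ 1 := by
  have hIpos : (0 : ℝ) < I.card := by exact_mod_cast card_pos.mpr hI
  rw [← sum_div, div_le_one hIpos]
  have : (A.biUnion id).card = ∑ J ∈ A, J.card := card_biUnion hd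
  have h2 : A.biUnion id ⊆ I := biUnion_subset.mpr hA
  have h3 := card_le_card h2
  rw [this] at h3
  exact_mod_cast h3

lemma Sys.avg_le (hI : I.Nonempty) (hA : ∀ J ∈ A, J ⊆ I ∧ J.Nonempty)
    (hd : (A : Set (Finset ι)).PairwiseDisjoint id) (x : V) :
    ∑ J ∈ A, (J.card : ℝ) / I.card * S.f J x ≤ S.f I x := by
  have hIpos : (0 : ℝ) < I.card := by exact_mod_cast card_pos.mpr hI
  have h1 : ∑ J ∈ A, (J.card : ℝ) / I.card * S.f J x
      = (∑ J ∈ A, ((S.at' J x).card : ℝ)) / I.card := by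
    rw [sum_div]
    refine sum_congr rfl fun J hJ => ?_
    rw [← S.card_mul_f (hA J hJ).2 x]
    ring
  rw [h1]
  unfold Sys.f
  gcongr
  have h2 : (A.biUnion (fun J => S.at' J x)).card = ∑ J ∈ A, (S.at' J x).card := by
    apply card_biUnion
    intro J hJ J' hJ' hne
    exact (hd hJ hJ' hne).mono (filter_subset _ _) (filter_subset _ _)
  have h3 : A.biUnion (fun J => S.at' J x) ⊆ S.at' I x := by
    apply biUnion_subset.mpr
    intro J hJ i hi
    rw [S.mem_at'] at hi ⊢
    exact ⟨(hA J hJ).1 hi.1, hi.2⟩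
  have h4 := card_le_card h3
  rw [h2] at h4
  exact_mod_cast h4

lemma Sys.avg_ge (hI : I.Nonempty) (hA : ∀ J ∈ A, J ⊆ I ∧ J.Nonempty)
    (hd : (A : Set (Finset ι)).PairwiseDisjoint id)
    (hrest : (((I \ A.biUnion id).card : ℝ)) < η * I.card) :
    ∑ x, S.f I x ≤ ∑ J ∈ A, (J.card : ℝ) / I.card * ∑ x, S.f J x + η * Fintype.card V := by
  have hIpos : (0 : ℝ) < I.card := by exact_mod_cast card_pos.mpr hI
  have h1 := S.sum_f hI univ
  simp only [inter_univ] at h1
  have h2 : ∑ J ∈ A, (J.card : ℝ) / I.card * ∑ x, S.f J x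
      = (∑ i ∈ A.biUnion id, ((S.vs i).card : ℝ)) / I.card := by
    rw [sum_biUnion hd, sum_div]
    refine sum_congr rfl fun J hJ => ?_
    have := S.sum_f (hA J hJ).2 univ
    simp only [inter_univ] at this
    simp only [id]
    rw [← this]
    ring
  have h3 : ∑ i ∈ I, ((S.vs i).card : ℝ) =
      ∑ i ∈ A.biUnion id, ((S.vs i).card : ℝ) + ∑ i ∈ I \ A.biUnion id, ((S.vs i).card : ℝ) := by
    have : A.biUnion id ⊆ I := biUnion_subset.mpr (fun J hJ => (hA J hJ).1)
    rw [add_comm]
    exact (sum_sdiff this).symm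
  have h4 : ∑ i ∈ I \ A.biUnion id, ((S.vs i).card : ℝ) ≤ η * I.card * Fintype.card V := by
    calc ∑ i ∈ I \ A.biUnion id, ((S.vs i).card : ℝ)
        ≤ ∑ i ∈ I \ A.biUnion id, (Fintype.card V : ℝ) := by
          apply sum_le_sum
          intro i _
          exact_mod_cast card_le_univ _
      _ = ((I \ A.biUnion id).card : ℝ) * Fintype.card V := by simp
      _ ≤ _ := by gcongr
  rw [h2]
  have h5 : ∑ x, S.f I x = (∑ i ∈ I, ((S.vs i).card : ℝ)) / I.card := by
    rw [← h1]; field_simp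
  rw [h5, h3, add_div]
  have h6 : (∑ i ∈ I \ A.biUnion id, ((S.vs i).card : ℝ)) / I.card ≤ η * Fintype.card V := by
    rw [div_le_iff₀ hIpos]
    linarith
  linarith

/-- data attached to a closed subfamily -/
lemma Sys.closed_data (h0 : 0 < η) (hs0 : 0 < s) (hs1 : s ≤ 1) (hI : I.Nonempty)
    (hbig : 1 ≤ η * (η * I.card)) {J : Finset ι} (hJ : S.Closed η I J) :
    ∃ X : Finset V, (∑ x ∈ Xᶜ, S.f J x ≤ 2 * η * Fintype.card V) ∧
      (∑ x ∈ X, S.f I x ≤ 1 / 2 * ∑ x, S.f I x + 1 / 2 * η * Fintype.card V) ∧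
      (∑ x ∈ X, S.f J x * Real.log (S.f J x) ≤ ∑ x, S.f J x * Real.log (S.f J x)
        + (2 * η * Real.log (1 / s) + s) * Fintype.card V) := by
  have hIpos : (0 : ℝ) < I.card := by exact_mod_cast card_pos.mpr hI
  have hlog : 0 ≤ Real.log (1 / s) := Real.log_nonneg (by rw [le_div_iff₀ hs0]; linarith)
  obtain ⟨U, hU1, hU2⟩ := hJ
  set X : Finset V := univ.filter (fun x => x ∉ U ∧ η ≤ S.f J x) with hX
  have hN : (0 : ℝ) ≤ Fintype.card V := by positivity
  have hc : ∑ x ∈ Xᶜ, S.f J x ≤ 2 * η * Fintype.card V := by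
    have hsub : Xᶜ ⊆ U ∪ univ.filter (fun x => S.f J x < η) := by
      intro x hx
      simp only [hX, mem_compl, mem_filter, mem_univ, true_and, not_and, not_le] at hx
      by_cases hxU : x ∈ U
      · simp [hxU]
      · simp [hx hxU]
    have h1 : ∑ x ∈ U, S.f J x ≤ η * Fintype.card V := by
      have h2 : 0 ≤ ∑ x ∈ U, S.f J x := sum_nonneg (fun x _ => S.f_nonneg J x)
      have h3 : (∑ x ∈ U, S.f J x) * 1 ≤ (∑ x ∈ U, S.f J x) * (η * (η * I.card)) := by gcongr
      have h4 : (∑ x ∈ U, S.f J x) * (η * (η * I.card)) =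
          η * ((∑ x ∈ U, S.f J x) * (η * I.card)) := by ring
      have h5 : η * ((∑ x ∈ U, S.f J x) * (η * I.card)) ≤ η * Fintype.card V := by gcongr
      linarith
    have h6 : ∑ x ∈ univ.filter (fun x => S.f J x < η), S.f J x ≤ η * Fintype.card V := by
      calc ∑ x ∈ univ.filter (fun x => S.f J x < η), S.f J x
          ≤ ∑ x ∈ univ.filter (fun x => S.f J x < η), η := by
            apply sum_le_sum
            intro x hx
            simp only [mem_filter, mem_univ, true_and] at hx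
            exact hx.le
        _ = ((univ.filter (fun x => S.f J x < η)).card : ℝ) * η := by simp
        _ ≤ Fintype.card V * η := by
            gcongr
            exact_mod_cast card_le_univ _
        _ = _ := by ring
    calc ∑ x ∈ Xᶜ, S.f J x ≤ ∑ x ∈ U ∪ univ.filter (fun x => S.f J x < η), S.f J x :=
          sum_le_sum_of_subset_of_nonneg hsub (fun x _ _ => S.f_nonneg J x)
      _ ≤ ∑ x ∈ U, S.f J x + ∑ x ∈ univ.filter (fun x => S.f J x < η), S.f J x := by
          rw [← sum_union_inter]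
          have : 0 ≤ ∑ x ∈ U ∩ univ.filter (fun x => S.f J x < η), S.f J x :=
            sum_nonneg (fun x _ => S.f_nonneg J x)
          linarith
      _ ≤ _ := by linarith
  refine ⟨X, hc, ?_, ?_⟩
  · have h1 := S.sum_f hI X
    have h2 := S.sum_f hI univ
    simp only [inter_univ] at h2
    have h3 : 2 * ∑ i ∈ I, ((S.vs i ∩ X).card : ℝ) ≤ ∑ i ∈ I, ((S.vs i).card : ℝ)
        + ∑ x ∈ X, ((S.nb I x ∩ X).card : ℝ) := by exact_mod_cast S.half I X
    have h4 : ∑ x ∈ X, ((S.nb I x ∩ X).card : ℝ) ≤ Fintype.card V * (η * I.card) := by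
      calc ∑ x ∈ X, ((S.nb I x ∩ X).card : ℝ) ≤ ∑ x ∈ X, (η * I.card) := by
            apply sum_le_sum
            intro x hx
            simp only [hX, mem_filter, mem_univ, true_and] at hx
            have h5 : S.nb I x ∩ X ⊆ S.nb I x \ U := by
              intro y hy
              simp only [hX, mem_inter, mem_filter, mem_univ, true_and] at hy
              exact mem_sdiff.mpr ⟨hy.1, hy.2.1⟩
            have h6 : ((S.nb I x ∩ X).card : ℝ) ≤ ((S.nb I x \ U).card : ℝ) := by
              exact_mod_cast card_le_card h5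
            exact h6.trans (hU2 x hx.2).le
        _ = (X.card : ℝ) * (η * I.card) := by simp
        _ ≤ _ := by
            gcongr
            exact_mod_cast card_le_univ _
    have h7 : (I.card : ℝ) * (∑ x ∈ X, S.f I x) ≤
        I.card * (1 / 2 * ∑ x, S.f I x + 1 / 2 * η * Fintype.card V) := by
      have : (I.card : ℝ) * (1 / 2 * ∑ x, S.f I x + 1 / 2 * η * Fintype.card V)
          = 1 / 2 * (I.card * ∑ x, S.f I x) + 1 / 2 * (Fintype.card V * (η * I.card)) := by ring
      rw [this, h1, h2]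
      linarith
    exact le_of_mul_le_mul_left h7 hIpos
  · have h1 : ∑ x, S.f J x * Real.log (S.f J x) = ∑ x ∈ X, S.f J x * Real.log (S.f J x)
        + ∑ x ∈ Xᶜ, S.f J x * Real.log (S.f J x) := (sum_add_sum_compl X _).symm
    have h2 : ∑ x ∈ Xᶜ, (S.f J x * Real.log s + S.f J x - s) ≤
        ∑ x ∈ Xᶜ, S.f J x * Real.log (S.f J x) :=
      sum_le_sum (fun x _ => phi_tangent (S.f_nonneg J x) hs0)
    rw [sum_sub_distrib, sum_add_distrib, ← sum_mul] at h2
    have h3 : ∑ x ∈ Xᶜ, s ≤ s * Fintype.card V := by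
      calc ∑ x ∈ Xᶜ, s = (Xᶜ.card : ℝ) * s := by simp
        _ ≤ Fintype.card V * s := by
          gcongr
          exact_mod_cast card_le_univ _
        _ = _ := by ring
    have h4 : 0 ≤ ∑ x ∈ Xᶜ, S.f J x := sum_nonneg (fun x _ => S.f_nonneg J x)
    have h5 : Real.log s = - Real.log (1 / s) := by rw [one_div, Real.log_inv]; ring
    have h6 : (∑ x ∈ Xᶜ, S.f J x) * Real.log (1 / s) ≤ 2 * η * Fintype.card V * Real.log (1 / s) := by
      gcongr
    rw [h5] at h2
    nlinarith

/-- the entropy increment -/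
theorem Sys.step (h0 : 0 < η) (h1 : η ≤ 1) (hs0 : 0 < s) (hs1 : s ≤ 1) (hm : 0 ≤ m)
    (hε : 0 ≤ ε') (hI : I.Nonempty) (hbig : 1 ≤ η * (η * I.card))
    (IH : ∀ J ⊆ I, J.Nonempty →
      (η * I.card : ℝ) * Real.exp (-(Real.log (1 / η) / η * (Fintype.card V / I.card)))
        ≤ J.card →
      ∑ x, S.f J x * Real.log (S.f J x) + m * ∑ x, S.f J x ≤ ε' * Fintype.card V) :
    ∑ x, S.f I x * Real.log (S.f I x) + (m + Real.log 2) * ∑ x, S.f I x ≤
      (ε' + s + η * (7 + 2 * Real.log (1 / s) + 3 * (m + Real.log 2))) * Fintype.card V := by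
  have hIpos : (0 : ℝ) < I.card := by exact_mod_cast card_pos.mpr hI
  have hN : (0 : ℝ) ≤ Fintype.card V := by positivity
  have hlog : 0 ≤ Real.log (1 / s) := Real.log_nonneg (by rw [le_div_iff₀ hs0]; linarith)
  have hlog2 : 0 ≤ Real.log 2 := Real.log_nonneg (by norm_num)
  obtain ⟨A, hA1, hA2, hA3⟩ := S.exists_partition h0 h1 hI _ I rfl
  have hAn : ∀ J ∈ A, J ⊆ I ∧ J.Nonempty := fun J hJ => ⟨(hA1 J hJ).1, (hA1 J hJ).2.1⟩
  have hdata : ∀ J : Finset ι, ∃ X : Finset V, J ∈ A →
      (∑ x ∈ Xᶜ, S.f J x ≤ 2 * η * Fintype.card V) ∧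
      (∑ x ∈ X, S.f I x ≤ 1 / 2 * ∑ x, S.f I x + 1 / 2 * η * Fintype.card V) ∧
      (∑ x ∈ X, S.f J x * Real.log (S.f J x) ≤ ∑ x, S.f J x * Real.log (S.f J x)
        + (2 * η * Real.log (1 / s) + s) * Fintype.card V) := by
    intro J
    by_cases hJ : J ∈ A
    · obtain ⟨X, hX⟩ := S.closed_data h0 hs0 hs1 hI hbig (hA1 J hJ).2.2.1
      exact ⟨X, fun _ => hX⟩
    · exact ⟨∅, fun h => absurd h hJ⟩
  choose X hX using hdata
  set w : Finset ι → ℝ := fun J => (J.card : ℝ) / I.card with hw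
  have hw0 : ∀ J, 0 ≤ w J := fun J => by simp only [hw]; positivity
  have hw1 : ∑ J ∈ A, w J ≤ 1 := Sys.weights_le hI (fun J hJ => (hAn J hJ).1) hA2
  set g : Finset ι → V → ℝ := fun J x => if x ∈ X J then S.f J x else 0 with hg
  set d : V → ℝ := fun x => ∑ J ∈ A, w J * g J x with hd
  set E : V → ℝ := fun x => ∑ J ∈ A, w J * (if x ∈ X J then 1 else 0) with hE
  have hg0 : ∀ J x, 0 ≤ g J x := by
    intro J x; simp only [hg]; split_ifs
    · exact S.f_nonneg J x
    · exact le_rfl
  have hgf : ∀ J x, g J x ≤ S.f J x := by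
    intro J x; simp only [hg]; split_ifs
    · exact le_rfl
    · exact S.f_nonneg J x
  have hg1 : ∀ J x, g J x ≤ (if x ∈ X J then 1 else 0) := by
    intro J x; simp only [hg]; split_ifs
    · exact S.f_le_one J x
    · exact le_rfl
  have hd0 : ∀ x, 0 ≤ d x := fun x => sum_nonneg (fun J _ => mul_nonneg (hw0 J) (hg0 J x))
  have hdD : ∀ x, d x ≤ S.f I x := by
    intro x
    refine le_trans ?_ (S.avg_le hI hAn hA2 x)
    apply sum_le_sum
    intro J _
    exact mul_le_mul_of_nonneg_left (hgf J x) (hw0 J)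
  have hdE : ∀ x, d x ≤ E x := by
    intro x
    apply sum_le_sum
    intro J _
    exact mul_le_mul_of_nonneg_left (hg1 J x) (hw0 J)
  have hE0 : ∀ x, 0 ≤ E x := fun x => (hd0 x).trans (hdE x)
  -- total mass of d
  have hsumg : ∀ J, ∑ x, g J x = ∑ x ∈ X J, S.f J x := by
    intro J
    simp only [hg]
    rw [sum_ite_mem, univ_inter]
  have hsumd : ∑ x, d x = ∑ J ∈ A, w J * ∑ x, g J x := by
    simp only [hd]
    rw [sum_comm]
    refine sum_congr rfl fun J _ => ?_
    rw [mul_sum]
  have hsumd_le : ∑ x, d x ≤ ∑ J ∈ A, w J * ∑ x, S.f J x := by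
    rw [hsumd]
    apply sum_le_sum
    intro J _
    apply mul_le_mul_of_nonneg_left _ (hw0 J)
    exact sum_le_sum (fun x _ => hgf J x)
  have hmass : ∑ x, S.f I x ≤ ∑ x, d x + 3 * η * Fintype.card V := by
    have h2 := S.avg_ge hI hAn hA2 hA3
    have h3 : ∑ J ∈ A, w J * ∑ x, S.f J x ≤ ∑ x, d x + 2 * η * Fintype.card V := by
      have h4 : ∀ J ∈ A, w J * ∑ x, S.f J x ≤ w J * ∑ x, g J x + w J * (2 * η * Fintype.card V) := by
        intro J hJ
        rw [← mul_add]
        apply mul_le_mul_of_nonneg_left _ (hw0 J)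
        rw [hsumg J, ← sum_add_sum_compl (X J) (fun x => S.f J x)]
        have := (hX J hJ).1
        linarith
      calc ∑ J ∈ A, w J * ∑ x, S.f J x
          ≤ ∑ J ∈ A, (w J * ∑ x, g J x + w J * (2 * η * Fintype.card V)) := sum_le_sum h4
        _ = ∑ x, d x + (∑ J ∈ A, w J) * (2 * η * Fintype.card V) := by
            rw [sum_add_distrib, ← hsumd, ← sum_mul]
        _ ≤ ∑ x, d x + 1 * (2 * η * Fintype.card V) := by gcongr
        _ = _ := by ring
    linarith
  -- pointwise Jensen
  have hjensen : ∀ x, d x * Real.log (d x) ≤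
      ∑ J ∈ A, w J * (g J x * Real.log (g J x)) + d x * Real.log (E x) := by
    intro x
    rcases (hd0 x).eq_or_lt with h | h
    · rw [← h]
      simp only [zero_mul, add_zero]
      have h2 : ∀ J ∈ A, w J * g J x = 0 := by
        have := (sum_eq_zero_iff_of_nonneg
          (fun J (_ : J ∈ A) => mul_nonneg (hw0 J) (hg0 J x))).mp h.symm
        exact this
      have h3 : ∑ J ∈ A, w J * (g J x * Real.log (g J x)) = 0 := by
        apply sum_eq_zero
        intro J hJ
        rw [← mul_assoc, h2 J hJ, zero_mul]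
      rw [h3]
    · have hEp : 0 < E x := lt_of_lt_of_le h (hdE x)
      have hsp : 0 < d x / E x := div_pos h hEp
      have h2 : ∀ J ∈ A, w J * (g J x * Real.log (d x / E x) + g J x
          - d x / E x * (if x ∈ X J then 1 else 0)) ≤ w J * (g J x * Real.log (g J x)) := by
        intro J _
        apply mul_le_mul_of_nonneg_left _ (hw0 J)
        by_cases hxJ : x ∈ X J
        · rw [if_pos hxJ, mul_one]
          exact phi_tangent (hg0 J x) hsp
        · have : g J x = 0 := by simp [hg, hxJ]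
          rw [this, if_neg hxJ]
          simp
      have h3 := sum_le_sum h2
      have h4 : ∑ J ∈ A, w J * (g J x * Real.log (d x / E x) + g J x
          - d x / E x * (if x ∈ X J then 1 else 0)) =
          d x * Real.log (d x / E x) + d x - d x / E x * E x := by
        have e : ∀ J ∈ A, w J * (g J x * Real.log (d x / E x) + g J x
          - d x / E x * (if x ∈ X J then 1 else 0)) =
          (w J * g J x) * Real.log (d x / E x) + w J * g J x
            - d x / E x * (w J * (if x ∈ X J then 1 else 0)) := by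
          intro J _; ring
        rw [sum_congr rfl e, sum_sub_distrib, sum_add_distrib, ← sum_mul, ← mul_sum]
      rw [h4, div_mul_cancel₀ _ hEp.ne', Real.log_div h.ne' hEp.ne'] at h3
      linarith
  have hlogE : ∀ x, d x * Real.log (E x) ≤ - Real.log 2 * d x + 2 * (d x * E x) - d x := by
    intro x
    rcases (hd0 x).eq_or_lt with h | h
    · rw [← h]; simp
    · have hEp : 0 < E x := lt_of_lt_of_le h (hdE x)
      have := mul_le_mul_of_nonneg_left (log_bound hEp) h.le
      linarith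
  have hsumdE : ∑ x, d x * E x ≤ 1 / 2 * ∑ x, S.f I x + 1 / 2 * η * Fintype.card V := by
    calc ∑ x, d x * E x ≤ ∑ x, S.f I x * E x :=
          sum_le_sum (fun x _ => mul_le_mul_of_nonneg_right (hdD x) (hE0 x))
      _ = ∑ J ∈ A, w J * ∑ x ∈ X J, S.f I x := by
          simp only [hE, mul_sum]
          rw [sum_comm]
          refine sum_congr rfl fun J _ => ?_
          rw [← sum_filter_add_sum_filter_not univ (fun x => x ∈ X J)]
          have e1 : ∑ x ∈ univ.filter (fun x => x ∈ X J),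
              S.f I x * (w J * (if x ∈ X J then 1 else 0)) = ∑ x ∈ X J, w J * S.f I x := by
            rw [filter_mem_eq_inter, univ_inter]
            refine sum_congr rfl fun x hx => ?_
            rw [if_pos hx]; ring
          have e2 : ∑ x ∈ univ.filter (fun x => ¬ x ∈ X J),
              S.f I x * (w J * (if x ∈ X J then 1 else 0)) = 0 := by
            apply sum_eq_zero
            intro x hx
            simp only [mem_filter, mem_univ, true_and] at hx
            rw [if_neg hx]; ring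
          rw [e1, e2, add_zero]
      _ ≤ ∑ J ∈ A, w J * (1 / 2 * ∑ x, S.f I x + 1 / 2 * η * Fintype.card V) := by
          apply sum_le_sum
          intro J hJ
          exact mul_le_mul_of_nonneg_left (hX J hJ).2.1 (hw0 J)
      _ = (∑ J ∈ A, w J) * (1 / 2 * ∑ x, S.f I x + 1 / 2 * η * Fintype.card V) := by
          rw [sum_mul]
      _ ≤ 1 * (1 / 2 * ∑ x, S.f I x + 1 / 2 * η * Fintype.card V) := by
          have : 0 ≤ ∑ x, S.f I x := sum_nonneg (fun x _ => S.f_nonneg I x)
          gcongr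
      _ = _ := by ring
  have hsumphi : ∑ x, ∑ J ∈ A, w J * (g J x * Real.log (g J x)) ≤
      - m * ∑ x, d x + (ε' + 2 * η * Real.log (1 / s) + s) * Fintype.card V := by
    rw [sum_comm]
    have e1 : ∀ J, ∑ x, w J * (g J x * Real.log (g J x)) =
        w J * ∑ x ∈ X J, S.f J x * Real.log (S.f J x) := by
      intro J
      rw [← mul_sum]
      congr 1
      have : ∀ x, g J x * Real.log (g J x) =
          if x ∈ X J then S.f J x * Real.log (S.f J x) else 0 := by
        intro x; simp only [hg]; split_ifs <;> simp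
      simp_rw [this]
      rw [sum_ite_mem, univ_inter]
    simp_rw [e1]
    have h2 : ∀ J ∈ A, w J * ∑ x ∈ X J, S.f J x * Real.log (S.f J x) ≤
        - m * (w J * ∑ x, S.f J x) + w J * ((ε' + 2 * η * Real.log (1 / s) + s) * Fintype.card V) := by
      intro J hJ
      have h3 := (hX J hJ).2.2
      have h4 := IH J (hAn J hJ).1 (hAn J hJ).2 (hA1 J hJ).2.2.2
      have h5 : ∑ x ∈ X J, S.f J x * Real.log (S.f J x) ≤
          - m * ∑ x, S.f J x + (ε' + 2 * η * Real.log (1 / s) + s) * Fintype.card V := by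
        nlinarith
      have h6 := mul_le_mul_of_nonneg_left h5 (hw0 J)
      nlinarith
    have h3 := sum_le_sum h2
    rw [sum_add_distrib, ← mul_sum, ← sum_mul] at h3
    have h4 : - m * ∑ J ∈ A, w J * ∑ x, S.f J x ≤ - m * ∑ x, d x := by
      have := mul_le_mul_of_nonneg_left hsumd_le hm
      linarith
    have h5 : (∑ J ∈ A, w J) * ((ε' + 2 * η * Real.log (1 / s) + s) * Fintype.card V) ≤
        1 * ((ε' + 2 * η * Real.log (1 / s) + s) * Fintype.card V) := by gcongr
    linarith
  have hfinal : ∑ x, S.f I x * Real.log (S.f I x) ≤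
      ∑ x, (∑ J ∈ A, w J * (g J x * Real.log (g J x)) +
        (- Real.log 2 * d x + 2 * (d x * E x) - d x) + (S.f I x - d x)) := by
    apply sum_le_sum
    intro x _
    have h2 := phi_step (hd0 x) (hdD x) (S.f_le_one I x)
    have h3 := hjensen x
    have h4 := hlogE x
    linarith
  rw [sum_add_distrib, sum_add_distrib, sum_sub_distrib, sum_sub_distrib, sum_add_distrib,
    ← mul_sum, ← mul_sum] at hfinal
  have h9 : (m + Real.log 2) * ∑ x, S.f I x ≤
      (m + Real.log 2) * (∑ x, d x + 3 * η * Fintype.card V) := by gcongr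
  nlinarith

end step

end

end Pool.Agent.H22.RSG
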